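import Pool.Agent.Helper93.TS.Stmts

/-!
# Module cl: the form `W`, `c` and the coarse direction of line 0 determine line 1
-/

set_option autoImplicit false

namespace Pool.Agent.Helper93.TS

open Pool.Agent.Helper8.Kak

theorem st_cl (h1 : ST_PRE) : ST_cl := by
  intro m N D
  have hP := h1 m N D
  have hN : (0 : ℝ) < (N : ℝ) := by exact_mod_cast D.hN
  have hNN : (0 : ℝ) < ((N * N : ℕ) : ℝ) := by
    push_cast
    positivity
  have hfd : 0 < fd N := by
    unfold fd
    positivity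
  have hcd : 0 < cd N := by
    unfold cd
    positivity
  refine cost_le D.V _ _ VV.l1 (by decide +kernel) _ fun r hr => ?_
  simp only [Finset.mem_insert, Finset.mem_singleton, forall_eq_or_imp, forall_eq, Dat.V_W,
    Dat.V_c, Dat.V_d0] at hr
  have hker : D.V VV.l1 = Setoid.ker (fun y => cell (fd N) (D.v (D.l (z1 y)))) :=
    Pool.Agent.Helper89.KakGeo.ker_eq_ker_cell D.hinj (fun y => D.l (z1 y))
  rw [hker]
  have key := Pool.Agent.Helper89.KakGeo.CE_known (a := 2) (k := 7) hP.hp hfd r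
    (fun y => D.v (D.l (z1 y)))
    (fun y i => fd N * (D.vW y i : ℝ) + tau N (D.vc y) * (cd N * (D.dc (D.l (z0 y)) i : ℝ)))
    (fun y => 1 + ((N * N : ℕ) : ℝ) / max |(D.vc y : ℝ)| 1) (by norm_num) (by norm_num) ?_ ?_ ?_
  · have e : Ex D.pz (fun y => Real.log (1 + ((N * N : ℕ) : ℝ) / max |(D.vc y : ℝ)| 1)) =
        Ex D.pz (fun y => dn (N * N) (D.vc y)) := rfl
    rw [e] at key
    refine key.trans ?_
    have h2 := log7_le
    have h3 := hP.dnc
    have h4 := hP.κ0
    exact mul_le_kk h4 (by linarith)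
  · intro y
    have : 0 ≤ ((N * N : ℕ) : ℝ) / max |(D.vc y : ℝ)| 1 := by positivity
    linarith
  · intro y y' _ _ h
    obtain ⟨g1, g2, g3⟩ := hr y y' h
    refine ⟨?_, by rw [g2]⟩
    funext i
    rw [g1, g2, g3]
  · intro y _ i
    have a1 := Pool.Agent.Helper89.KakGeo.cell_err hfd
      (fun i => D.v (D.l (z1 y)) i - tau N (D.vc y) * D.v (D.l (z0 y)) i) i
    have a2 := Pool.Agent.Helper89.KakGeo.cell_err hcd (D.v (D.l (z0 y))) i
    have b1 : |(D.v (D.l (z1 y)) i - tau N (D.vc y) * D.v (D.l (z0 y)) i)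
        - fd N * (D.vW y i : ℝ)| ≤ fd N := a1
    have b2 : |D.v (D.l (z0 y)) i - cd N * (D.dc (D.l (z0 y)) i : ℝ)| ≤ cd N := a2
    have b3 : |tau N (D.vc y)| * cd N ≤ ((N * N : ℕ) : ℝ) / max |(D.vc y : ℝ)| 1 * fd N := by
      by_cases hc : D.vc y = 0
      · unfold tau
        rw [hc, Int.cast_zero, div_zero, abs_zero, zero_mul]
        positivity
      · have hc1 : 1 ≤ |(D.vc y : ℝ)| := by
          have := Int.one_le_abs hc
          exact_mod_cast this
        have hc0 : 0 < |(D.vc y : ℝ)| := by linarith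
        rw [max_eq_left hc1]
        unfold tau cd fd
        rw [abs_div, abs_of_pos hN]
        apply le_of_eq
        field_simp
    have b4 : |tau N (D.vc y) * (D.v (D.l (z0 y)) i - cd N * (D.dc (D.l (z0 y)) i : ℝ))|
        ≤ ((N * N : ℕ) : ℝ) / max |(D.vc y : ℝ)| 1 * fd N := by
      rw [abs_mul]
      exact (mul_le_mul_of_nonneg_left b2 (abs_nonneg _)).trans b3
    have b5 : 0 ≤ ((N * N : ℕ) : ℝ) / max |(D.vc y : ℝ)| 1 * fd N := by positivity
    rw [abs_le] at b1 b4 ⊢
    constructor <;> nlinarith [b1.1, b1.2, b4.1, b4.2]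

end Pool.Agent.Helper93.TS
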